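import Mathlib
import Pool.Agent.H952R3.Ext.Final

/-!
The `s`-point sets in `ℝ^d` with the minimum number `m(d, s)` of primitive Radon partitions
(Q2 of the problem), for all `d ≥ 1` and `s ≥ d + 2`.
-/

set_option autoImplicit false

namespace Pool.Agent.Results.MP_bb0bb6_co.ExtremalSets

/-- The unordered pair `p` is a Radon partition in `S`: `p = {A, B}` with `A`, `B` disjoint finite
subsets of `S` whose convex hulls meet. -/
def RadonIn {d : ℕ} (S : Finset (Fin d → ℝ)) (p : Sym2 (Finset (Fin d → ℝ))) : Prop :=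
  ∃ A B : Finset (Fin d → ℝ), p = s(A, B) ∧ A ⊆ S ∧ B ⊆ S ∧ Disjoint A B ∧
    (convexHull ℝ (A : Set (Fin d → ℝ)) ∩ convexHull ℝ (B : Set (Fin d → ℝ))).Nonempty

/-- `p = {A, B}` extends `q = {A', B'}`: `A' ⊆ A` and `B' ⊆ B` for suitable labellings. -/
def Extends {d : ℕ} (p q : Sym2 (Finset (Fin d → ℝ))) : Prop :=
  ∃ A B A' B' : Finset (Fin d → ℝ), p = s(A, B) ∧ q = s(A', B') ∧ A' ⊆ A ∧ B' ⊆ B

/-- `p` is a primitive Radon partition in `S`: it extends no Radon partition in `S` other than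
itself. -/
def Primitive {d : ℕ} (S : Finset (Fin d → ℝ)) (p : Sym2 (Finset (Fin d → ℝ))) : Prop :=
  RadonIn S p ∧ ∀ q, RadonIn S q → Extends p q → q = p

/-- `π(S)`, the number of primitive Radon partitions in `S`. -/
noncomputable def numPrimitive {d : ℕ} (S : Finset (Fin d → ℝ)) : ℕ :=
  {p | Primitive S p}.ncard

variable {d : ℕ}

/-- `k` points on a line. -/
def Line (k : ℕ) (A : Finset (Fin d → ℝ)) : Prop :=
  A.card = k ∧ Collinear ℝ (A : Set (Fin d → ℝ))

/-- A minimal affinely dependent set: `k + 2` points in general position in a `k`-flat. -/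
def Circuit (C : Finset (Fin d → ℝ)) : Prop :=
  ¬ AffineIndependent ℝ ((↑) : C → (Fin d → ℝ)) ∧
    ∀ D : Finset (Fin d → ℝ), D ⊂ C → AffineIndependent ℝ ((↑) : D → (Fin d → ℝ))

/-- `n` points, not all on a line, of which `n - 2` (the set `L`) are on a line, and the line
through the other two points `p`, `q` passes through a point `a` of `L`. -/
def Hook (n : ℕ) (A : Finset (Fin d → ℝ)) : Prop :=
  ∃ (L : Finset (Fin d → ℝ)) (p q a : Fin d → ℝ), L.card + 2 = n ∧ A = insert p (insert q L) ∧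
    p ∉ L ∧ q ∉ L ∧ p ≠ q ∧ a ∈ L ∧ Collinear ℝ (L : Set (Fin d → ℝ)) ∧
    Collinear ℝ ({a, p, q} : Set (Fin d → ℝ)) ∧ ¬ Collinear ℝ (A : Set (Fin d → ℝ))

/-- `n` points spanning a plane, no four on a line, with at least `t` collinear triples.
`Tri 6 4` are the vertex sets of complete quadrilaterals, `Tri 7 6` are the realisations of the
non-Fano configuration (a triangle, three concurrent cevians with their feet and the common
point). -/
def Tri (n t : ℕ) (A : Finset (Fin d → ℝ)) : Prop :=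
  A.card = n ∧ Module.finrank ℝ (vectorSpan ℝ (A : Set (Fin d → ℝ))) = 2 ∧
    (∀ F : Finset (Fin d → ℝ), F ⊆ A → F.card = 4 → ¬ Collinear ℝ (F : Set (Fin d → ℝ))) ∧
    t ≤ {T : Finset (Fin d → ℝ) | T ⊆ A ∧ T.card = 3 ∧ Collinear ℝ (T : Set (Fin d → ℝ))}.ncard

/-- Seven points spanning a plane, four of them (and no fifth one) on a line, and the line through
any two of the other three points passes through one of the four. -/
def Seven (A : Finset (Fin d → ℝ)) : Prop :=
  A.card = 7 ∧ Module.finrank ℝ (vectorSpan ℝ (A : Set (Fin d → ℝ))) = 2 ∧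
    ∃ L : Finset (Fin d → ℝ), L ⊆ A ∧ L.card = 4 ∧ Collinear ℝ (L : Set (Fin d → ℝ)) ∧
      (∀ p ∈ A, p ∉ L → ¬ Collinear ℝ (insert p (L : Set (Fin d → ℝ)))) ∧
      ∀ p ∈ A, ∀ q ∈ A, p ∉ L → q ∉ L → p ≠ q →
        ∃ a ∈ L, Collinear ℝ ({a, p, q} : Set (Fin d → ℝ))

/-- The ordinary parts at level `q`. -/
def Ordinary (q : ℕ) (A : Finset (Fin d → ℝ)) : Prop :=
  if q = 2 then A.card = 1 ∨ Circuit A
  else if q = 3 then Line 3 A ∨ Line 4 A ∨ Hook 5 A
  else Line q A ∨ Line (q + 1) A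

/-- The special part at level `q ≥ 4`, for even `d`. -/
def Special (q : ℕ) (A : Finset (Fin d → ℝ)) : Prop :=
  if q = 4 then Tri 6 4 A
  else if q = 5 then Tri 6 4 A ∨ Hook 7 A ∨ Seven A ∨ Tri 7 6 A
  else Hook (q + 2) A

/-- `S` affinely spans `ℝ^d` and is the disjoint union of the nonempty sets in `P`, whose affine
hulls are affinely independent: their dimensions plus one add up to `d + 1`. -/
def Splitting (S : Finset (Fin d → ℝ)) (P : Finset (Finset (Fin d → ℝ))) : Prop :=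
  affineSpan ℝ (S : Set (Fin d → ℝ)) = ⊤ ∧ (∀ A ∈ P, A.Nonempty) ∧
    (P : Set (Finset (Fin d → ℝ))).PairwiseDisjoint id ∧ (∀ x, x ∈ S ↔ ∃ A ∈ P, x ∈ A) ∧
    ∑ A ∈ P, (Module.finrank ℝ (vectorSpan ℝ (A : Set (Fin d → ℝ))) + 1) = d + 1

/-- The level: `⌊s / m⌋` for `d = 2m - 1` and `⌈(s - 1) / m⌉ - 1` for `d = 2m`. -/
def level (d s : ℕ) : ℕ :=
  if d % 2 = 1 then s / ((d + 1) / 2) else (s - 1 + (d / 2 - 1)) / (d / 2) - 1

/-- The extremal sets. -/
def Extremal (S : Finset (Fin d → ℝ)) : Prop :=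
  ∃ P : Finset (Finset (Fin d → ℝ)), Splitting S P ∧
    if d % 2 = 1 ∨ level d S.card ≤ 3 then ∀ A ∈ P, Ordinary (level d S.card) A
    else ∃ B ∈ P, Special (level d S.card) B ∧
      ∀ A ∈ P, A ≠ B → Ordinary (level d S.card) A

/-- For all `d ≥ 1` and `s ≥ d + 2`, an `s`-point set `S` in `ℝ^d` has the minimum number of
primitive Radon partitions among all `s`-point sets in `ℝ^d` if and only if it is `Extremal`. -/
theorem result (d : ℕ) (hd : 1 ≤ d) (S : Finset (Fin d → ℝ)) (hS : d + 2 ≤ S.card) :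
    (∀ T : Finset (Fin d → ℝ), T.card = S.card → numPrimitive S ≤ numPrimitive T) ↔
      Extremal S :=
  Pool.Agent.H952R3.Ext.Final.final hd S hS

end Pool.Agent.Results.MP_bb0bb6_co.ExtremalSets
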